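import Mathlib

open Set Polynomial

namespace Pool.Agent.Results.MP_8a808a_an.InvariantAnnulus

/-- The real polynomial Henon map `f(x,y) = (p(x) - b y, x)`. -/
noncomputable def henon (p : ℝ[X]) (b : ℝ) (z : ℝ × ℝ) : ℝ × ℝ := (p.eval z.1 - b * z.2, z.1)

/-- `A` is an annular rotation domain of `f` in the plane: an open set, homeomorphic to the open
annulus `𝕊¹ × (0,1)`, with `f(A) = A`, containing no periodic point of `f`. -/
def IsAnnularRotationDomain (f : ℝ × ℝ → ℝ × ℝ) (A : Set (ℝ × ℝ)) : Prop :=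
  IsOpen A ∧ Nonempty (A ≃ₜ (Circle × Ioo (0 : ℝ) 1)) ∧ f '' A = A ∧
    ∀ z ∈ A, z ∉ Function.periodicPts f

/-- `(0, ∞)` is homeomorphic to `(0, 1)`. -/
noncomputable def ioiHomeo : Ioi (0 : ℝ) ≃ₜ Ioo (0 : ℝ) 1 where
  toFun t := ⟨t.1 / (1 + t.1), by
    have ht : 0 < t.1 := t.2
    constructor
    · positivity
    · rw [div_lt_one (by linarith)]; linarith⟩
  invFun s := ⟨s.1 / (1 - s.1), by
    have h1 : 0 < s.1 := s.2.1
    have h2 : s.1 < 1 := s.2.2
    exact div_pos h1 (by linarith)⟩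
  left_inv t := by
    have ht : 0 < t.1 := t.2
    apply Subtype.ext
    show t.1 / (1 + t.1) / (1 - t.1 / (1 + t.1)) = t.1
    have h1 : 1 + t.1 ≠ 0 := by linarith
    have h2 : 1 - t.1 / (1 + t.1) = 1 / (1 + t.1) := by field_simp; ring
    rw [h2]; field_simp
  right_inv s := by
    have h1 : 0 < s.1 := s.2.1
    have h2 : s.1 < 1 := s.2.2
    apply Subtype.ext
    show s.1 / (1 - s.1) / (1 + s.1 / (1 - s.1)) = s.1
    have h3 : 1 - s.1 ≠ 0 := by linarith
    have h4 : 1 + s.1 / (1 - s.1) = 1 / (1 - s.1) := by field_simp; ring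
    rw [h4]; field_simp
  continuous_toFun := by
    apply Continuous.subtype_mk
    apply Continuous.div (by fun_prop) (by fun_prop)
    intro t
    have ht : 0 < t.1 := t.2
    linarith
  continuous_invFun := by
    apply Continuous.subtype_mk
    apply Continuous.div (by fun_prop) (by fun_prop)
    intro s
    have h2 : s.1 < 1 := s.2.2
    linarith

/-- The plane minus a point is an open annulus. -/
lemma punctured_plane (a : ℝ × ℝ) : Nonempty (({a}ᶜ : Set (ℝ × ℝ)) ≃ₜ (Circle × Ioo (0 : ℝ) 1)) := by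
  set e : ℝ × ℝ ≃ₜ ℂ :=
    (Complex.equivRealProdCLM.symm.toHomeomorph).trans
      (Homeomorph.subRight (Complex.equivRealProdCLM.symm a)) with he
  have hea : e a = 0 := by simp [he]
  have himg : ∀ x, x ∈ ({a}ᶜ : Set (ℝ × ℝ)) ↔ e x ∈ ({0}ᶜ : Set ℂ) := by
    intro x
    simp only [mem_compl_iff, mem_singleton_iff]
    rw [← hea, e.injective.eq_iff]
  have h1 : ({a}ᶜ : Set (ℝ × ℝ)) ≃ₜ ({0}ᶜ : Set ℂ) := e.subtype himg
  have h2 : (Metric.sphere (0 : ℂ) 1 × Ioi (0 : ℝ)) ≃ₜ (Circle × Ioo (0 : ℝ) 1) :=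
    Homeomorph.prodCongr (Homeomorph.refl _) ioiHomeo
  exact ⟨(h1.trans (homeomorphUnitSphereProd ℂ)).trans h2⟩

/-- Let `q` be a nonnegative polynomial whose only real zero is `c`. The only periodic point of the
conservative Henon map of `p(x) = 2x + q(x)`, `b = 1`, is `(c, c)`. -/
lemma periodic_eq {q : ℝ[X]} {c : ℝ} (hq : ∀ x, 0 ≤ q.eval x) (hc : ∀ x, q.eval x = 0 → x = c)
    {z : ℝ × ℝ} (hz : z ∈ Function.periodicPts (henon (2 * X + q) 1)) : z = (c, c) := by
  obtain ⟨n, hn, hper⟩ := hz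
  set f := henon (2 * X + q) 1 with hf
  have hper' : f^[n] z = z := hper
  set w : ℕ → ℝ × ℝ := fun k => f^[k] z with hw
  have hws : ∀ k, w (k + 1) = f (w k) := fun k => Function.iterate_succ_apply' f k z
  -- the difference `x - y` increases by `q(x)`
  have hdiff : ∀ k, (w (k + 1)).1 - (w (k + 1)).2 = (w k).1 - (w k).2 + q.eval (w k).1 := by
    intro k
    rw [hws]
    simp only [hf, henon, eval_add, eval_mul, eval_ofNat, eval_X]
    ring
  have hmono : ∀ k, (w 0).1 - (w 0).2 ≤ (w k).1 - (w k).2 := by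
    intro k
    induction k with
    | zero => exact le_rfl
    | succ k ih => rw [hdiff]; linarith [hq (w k).1]
  have hzero : ∀ k, k < n → q.eval (w k).1 = 0 := by
    intro k hk
    have h1 : ∀ j, (w (k + 1)).1 - (w (k + 1)).2 ≤ (w (k + 1 + j)).1 - (w (k + 1 + j)).2 := by
      intro j
      induction j with
      | zero => exact le_rfl
      | succ j ih =>
        have h5 := hdiff (k + 1 + j)
        rw [← add_assoc]
        linarith [hq (w (k + 1 + j)).1]
    have h2 := h1 (n - (k + 1))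
    rw [show k + 1 + (n - (k + 1)) = n by omega] at h2
    have h3 : w n = w 0 := hper'
    rw [h3, hdiff] at h2
    have h4 := hmono k
    linarith [hq (w k).1]
  have hx0 : (w 0).1 = c := hc _ (hzero 0 hn)
  have hxn : (w (n - 1)).1 = c := hc _ (hzero (n - 1) (by omega))
  have hy : (w n).2 = (w (n - 1)).1 := by
    have h1 := hws (n - 1)
    rw [show n - 1 + 1 = n by omega] at h1
    rw [h1, hf]
    rfl
  have h3 : w n = w 0 := hper'
  rw [h3, hxn] at hy
  exact Prod.ext hx0 hy

/-- The Henon map is surjective and fixes `(c,c)`, so it preserves the complement of `(c,c)`. -/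
lemma image_compl {q : ℝ[X]} {c : ℝ} (hcz : q.eval c = 0) :
    henon (2 * X + q) 1 '' ({(c, c)}ᶜ : Set (ℝ × ℝ)) = {(c, c)}ᶜ := by
  have hfix : henon (2 * X + q) 1 (c, c) = (c, c) := by
    simp only [henon, eval_add, eval_mul, eval_ofNat, eval_X, hcz]
    ext
    · simp; ring
    · rfl
  have hinj : Function.Injective (henon (2 * X + q) 1) := by
    rintro ⟨x, y⟩ ⟨x', y'⟩ h
    simp only [henon, Prod.mk.injEq] at h
    obtain ⟨h1, h2⟩ := h
    subst h2
    ext
    · rfl
    · simp only; linarith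
  have hsurj : Function.Surjective (henon (2 * X + q) 1) := by
    rintro ⟨u, v⟩
    refine ⟨(v, (2 * X + q).eval v - u), ?_⟩
    simp only [henon]
    ext
    · simp only; ring
    · rfl
  rw [image_compl_eq ⟨hinj, hsurj⟩, image_singleton, hfix]

/-- **Q1, as stated, has the answer yes.** For every `k ≥ 1` the conservative Henon map
`(x, y) ↦ (2x + (x-1)^{2k} - y, x)` of degree `2k` (for `k = 1` this is `(x²+1-y, x)`) has exactly
one periodic point, the fixed point `(1,1)`, and the complement of that point is an annular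
rotation domain. -/
theorem result (k : ℕ) (hk : 1 ≤ k) :
    ∃ p : ℝ[X], p.natDegree = 2 * k ∧
      Function.periodicPts (henon p 1) = {((1 : ℝ), (1 : ℝ))} ∧
      IsAnnularRotationDomain (henon p 1) ({((1 : ℝ), (1 : ℝ))}ᶜ : Set (ℝ × ℝ)) := by
  set q : ℝ[X] := (X - C 1) ^ (2 * k) with hq
  have hqe : ∀ x, q.eval x = (x - 1) ^ (2 * k) := by intro x; simp [hq]
  have hq0 : ∀ x, 0 ≤ q.eval x := by
    intro x
    rw [hqe, pow_mul]
    positivity
  have hqz : ∀ x, q.eval x = 0 → x = 1 := by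
    intro x hx
    rw [hqe] at hx
    have := pow_eq_zero_iff (by omega) |>.mp hx
    linarith
  have hq1 : q.eval 1 = 0 := by rw [hqe, sub_self, zero_pow (by omega)]
  have hfix : henon (2 * X + q) 1 (1, 1) = (1, 1) := by
    simp only [henon, eval_add, eval_mul, eval_ofNat, eval_X, hq1]
    norm_num
  have hper : Function.periodicPts (henon (2 * X + q) 1) = {((1 : ℝ), (1 : ℝ))} := by
    ext z
    constructor
    · intro hz
      exact periodic_eq hq0 hqz hz
    · rintro rfl
      exact ⟨1, one_pos, hfix⟩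
  have hdq : q.natDegree = 2 * k := by
    rw [hq, natDegree_pow, natDegree_X_sub_C, mul_one]
  have hmonic : q.Monic := (monic_X_sub_C 1).pow _
  refine ⟨2 * X + q, ?_, hper, isOpen_compl_singleton, punctured_plane _, image_compl hq1, ?_⟩
  · have h2 : ((2 : ℝ[X]) * X).natDegree ≤ 1 := by compute_degree
    rw [natDegree_add_eq_right_of_natDegree_lt, hdq]
    rw [hdq]
    omega
  · intro z hz hz'
    rw [hper] at hz'
    exact hz hz'

end Pool.Agent.Results.MP_8a808a_an.InvariantAnnulus
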